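import Pool.Agent.Helper67.Fin.St4

set_option autoImplicit false

/-!
# Module FRB of project FN: courteous measures on nonabelian free groups
-/

namespace Pool.Agent.Helper92.FN

open Pool.Agent.Helper67.Fin Pool.Agent.Helper86.ML Pool.Agent.Helper67.Cour

section energy

variable {G X : Type} [Group G] [MulAction G X]

lemma supp_smul {φ : X → ℝ} (hφ : (Function.support φ).Finite) (s : G) :
    (Function.support fun k => φ (s • k)).Finite := by
  have : (Function.support fun k => φ (s • k)) = (fun k => s • k) ⁻¹' (Function.support φ) := rfl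
  rw [this]
  exact hφ.preimage (MulAction.injective s).injOn

lemma summ_en {φ : X → ℝ} (hφ : (Function.support φ).Finite) (s : G) :
    Summable fun k => (φ (s • k) - φ k) ^ 2 := by
  refine summable_of_ne_finset_zero (s := ((supp_smul hφ s).union hφ).toFinset) fun k hk => ?_
  rw [Set.Finite.mem_toFinset, Set.mem_union, Function.mem_support, Function.mem_support,
    not_or, not_not, not_not] at hk
  rw [hk.1, hk.2]
  ring

/-- Finite capacity passes to unions. -/
lemma finCap_union {D E : Set X} (hD : FinCap G D) (hE : FinCap G E) : FinCap G (D ∪ E) := by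
  classical
  intro S
  obtain ⟨C, hC⟩ := hD S
  obtain ⟨C', hC'⟩ := hE S
  refine ⟨2 * C + 2 * C', fun F hF => ?_⟩
  obtain ⟨φ, p1, p2, p3⟩ := hC (F.filter fun x => x ∈ D) (by
    intro x hx
    exact (Finset.mem_filter.1 hx).2)
  obtain ⟨ψ, q1, q2, q3⟩ := hC' (F.filter fun x => x ∈ E) (by
    intro x hx
    exact (Finset.mem_filter.1 hx).2)
  have hs : (Function.support fun x => |φ x| + |ψ x|).Finite := by
    refine (p1.union q1).subset fun x hx => ?_
    by_contra h
    rw [Set.mem_union, Function.mem_support, Function.mem_support, not_or, not_not, not_not] at h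
    apply hx
    change |φ x| + |ψ x| = 0
    rw [h.1, h.2]
    simp
  refine ⟨fun x => |φ x| + |ψ x|, hs, ?_, ?_⟩
  · intro x hx
    rcases hF hx with h | h
    · have := p2 x (Finset.mem_filter.2 ⟨hx, h⟩)
      have h1 := le_abs_self (φ x)
      have h2 := abs_nonneg (ψ x)
      change 1 ≤ |φ x| + |ψ x|
      linarith
    · have := q2 x (Finset.mem_filter.2 ⟨hx, h⟩)
      have h1 := le_abs_self (ψ x)
      have h2 := abs_nonneg (φ x)
      change 1 ≤ |φ x| + |ψ x|
      linarith
  · have key : ∀ s ∈ S, ∑' k, ((|φ (s • k)| + |ψ (s • k)|) - (|φ k| + |ψ k|)) ^ 2 ≤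
        2 * (∑' k, (φ (s • k) - φ k) ^ 2) + 2 * ∑' k, (ψ (s • k) - ψ k) ^ 2 := by
      intro s _
      rw [← tsum_mul_left, ← tsum_mul_left,
        ← Summable.tsum_add ((summ_en p1 s).mul_left 2) ((summ_en q1 s).mul_left 2)]
      refine Summable.tsum_le_tsum (fun k => ?_) (summ_en hs s)
        (((summ_en p1 s).mul_left 2).add ((summ_en q1 s).mul_left 2))
      have h1 := abs_abs_sub_abs_le_abs_sub (φ (s • k)) (φ k)
      have h2 := abs_abs_sub_abs_le_abs_sub (ψ (s • k)) (ψ k)
      have h3 : (|φ (s • k)| - |φ k|) ^ 2 ≤ (φ (s • k) - φ k) ^ 2 := sq_le_sq.2 h1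
      have h4 : (|ψ (s • k)| - |ψ k|) ^ 2 ≤ (ψ (s • k) - ψ k) ^ 2 := sq_le_sq.2 h2
      nlinarith [sq_nonneg ((|φ (s • k)| - |φ k|) - (|ψ (s • k)| - |ψ k|))]
    calc ∑ s ∈ S, ∑' k, ((|φ (s • k)| + |ψ (s • k)|) - (|φ k| + |ψ k|)) ^ 2
        ≤ ∑ s ∈ S, (2 * (∑' k, (φ (s • k) - φ k) ^ 2) + 2 * ∑' k, (ψ (s • k) - ψ k) ^ 2) :=
          Finset.sum_le_sum key
      _ = 2 * (∑ s ∈ S, ∑' k, (φ (s • k) - φ k) ^ 2) +
          2 * ∑ s ∈ S, ∑' k, (ψ (s • k) - ψ k) ^ 2 := by
          rw [Finset.sum_add_distrib, Finset.mul_sum, Finset.mul_sum]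
      _ ≤ 2 * C + 2 * C' := by linarith

end energy

section free

variable {α : Type}

/-- Finite capacity is invariant under right translations. -/
lemma finCap_right {D : Set (FreeGroup α)} (hD : FinCap (FreeGroup α) D) (h : FreeGroup α) :
    FinCap (FreeGroup α) {x | x * h ∈ D} := by
  classical
  intro S
  obtain ⟨C, hC⟩ := hD S
  refine ⟨C, fun F hF => ?_⟩
  obtain ⟨φ, p1, p2, p3⟩ := hC (F.image fun x => x * h) (by
    intro x hx
    obtain ⟨y, hy, rfl⟩ := Finset.mem_image.1 (Finset.mem_coe.1 hx)
    exact hF hy)
  refine ⟨fun x => φ (x * h), ?_, ?_, ?_⟩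
  · have : (Function.support fun x => φ (x * h)) = (fun x => x * h) ⁻¹' (Function.support φ) := rfl
    rw [this]
    exact p1.preimage (mul_left_injective h).injOn
  · intro x hx
    exact p2 _ (Finset.mem_image_of_mem _ hx)
  · refine le_trans (le_of_eq ?_) p3
    refine Finset.sum_congr rfl fun s _ => ?_
    rw [← (Equiv.mulRight h).tsum_eq fun k => (φ (s • k) - φ k) ^ 2]
    refine tsum_congr fun k => ?_
    simp [smul_eq_mul, mul_assoc]

lemma of_ne {a b : α} (hab : a ≠ b) : FreeGroup.of a ≠ FreeGroup.of b :=
  fun h => hab (FreeGroup.of_injective h)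

/-- The whole group has no finite capacity. -/
lemma not_finCap (h2 : StFRA) {a b : α} (hab : a ≠ b) :
    ¬ FinCap (FreeGroup α) (Set.univ : Set (FreeGroup α)) := by
  classical
  intro h
  obtain ⟨C, hC⟩ := h {FreeGroup.of a, FreeGroup.of b}
  obtain ⟨N, hN⟩ := exists_nat_gt (8 * C)
  have hinj : Function.Injective fun n : ℕ => (FreeGroup.of a) ^ n := by
    intro m n hmn
    have h1 := congrArg (fun x => (FreeGroup.toWord x).length) hmn
    simpa [FreeGroup.toWord_of_pow] using h1
  obtain ⟨φ, p1, p2, p3⟩ := hC ((Finset.range N).image fun n : ℕ => (FreeGroup.of a) ^ n)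
    (fun _ _ => Set.mem_univ _)
  have hsum : Summable fun k => φ k ^ 2 := by
    refine summable_of_ne_finset_zero (s := p1.toFinset) fun k hk => ?_
    rw [Set.Finite.mem_toFinset, Function.mem_support, not_not] at hk
    rw [hk]
    ring
  have h3 := h2 α a b hab φ hsum
  rw [Finset.sum_pair (of_ne hab)] at p3
  have h4 : Helper67.Fin.en φ (FreeGroup.of a) + Helper67.Fin.en φ (FreeGroup.of b) ≤ C := p3
  have h5 : (N : ℝ) ≤ ∑' k, φ k ^ 2 := by
    have h6 : ∑ k ∈ (Finset.range N).image fun n : ℕ => (FreeGroup.of a) ^ n, φ k ^ 2 ≤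
        ∑' k, φ k ^ 2 := hsum.sum_le_tsum _ (fun k _ => sq_nonneg _)
    have h7 : ((((Finset.range N).image fun n : ℕ => (FreeGroup.of a) ^ n).card : ℕ) : ℝ) ≤
        ∑ k ∈ (Finset.range N).image fun n : ℕ => (FreeGroup.of a) ^ n, φ k ^ 2 := by
      rw [← nsmul_one, ← Finset.sum_const]
      refine Finset.sum_le_sum fun k hk => ?_
      have := p2 k hk
      nlinarith
    rw [Finset.card_image_of_injective _ hinj, Finset.card_range] at h7
    exact h7.trans h6
  linarith

lemma not_recPt (h2 : StFRA) {a b : α} (hab : a ≠ b) :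
    ¬ RecPt (FreeGroup α) (1 : FreeGroup α) := by
  classical
  intro h
  obtain ⟨φ, p1, p2, p3⟩ := h {FreeGroup.of a, FreeGroup.of b} (1 / 8) (by norm_num)
  have hsum : Summable fun k => φ k ^ 2 := by
    refine summable_of_ne_finset_zero (s := p1.toFinset) fun k hk => ?_
    rw [Set.Finite.mem_toFinset, Function.mem_support, not_not] at hk
    rw [hk]
    ring
  have h3 := h2 α a b hab φ hsum
  rw [Finset.sum_pair (of_ne hab)] at p3
  have h4 : Helper67.Fin.en φ (FreeGroup.of a) + Helper67.Fin.en φ (FreeGroup.of b) < 1 / 8 := p3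
  have h5 : φ 1 ^ 2 ≤ ∑' k, φ k ^ 2 := hsum.le_tsum 1 (fun k _ => sq_nonneg _)
  rw [p2] at h5
  linarith

variable [DecidableEq α]

/-- The last letter. -/
def lst (x : FreeGroup α) : Option (α × Bool) := (FreeGroup.toWord x).getLast?

/-- Right multiplication by a generator. -/
lemma lst_mul (x : FreeGroup α) (c : α) (h : lst x ≠ some (c, false)) :
    lst (x * FreeGroup.of c) = some (c, true) := by
  have h1 : FreeGroup.IsReduced (FreeGroup.toWord x ++ [(c, true)]) := by
    rw [FreeGroup.IsReduced, List.isChain_append]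
    refine ⟨FreeGroup.isReduced_toWord, List.isChain_singleton _, ?_⟩
    intro y hy z hz hyz
    simp only [List.head?_cons, Option.mem_def, Option.some.injEq] at hz
    subst hz
    by_contra h2
    apply h
    rw [lst]
    rw [Option.mem_def] at hy
    rw [hy]
    have h3 : y = (c, false) := by
      apply Prod.ext
      · exact hyz
      · cases h4 : y.2
        · rfl
        · exact absurd h4 h2
    rw [h3]
  rw [lst, FreeGroup.toWord_mul, FreeGroup.toWord_of, h1.reduce_eq]
  simp

/-- Left multiplication by a generator changes the last letter at two places at most. -/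
lemma lst_left (c : α) : {x : FreeGroup α | lst (FreeGroup.of c * x) ≠ lst x}.Finite := by
  refine (Set.toFinite {1, (FreeGroup.of c)⁻¹}).subset fun x hx => ?_
  by_contra h
  simp only [Set.mem_insert_iff, Set.mem_singleton_iff, not_or] at h
  apply hx
  rw [lst, lst, FreeGroup.toWord_mul, FreeGroup.toWord_of, List.singleton_append,
    FreeGroup.reduce.cons, FreeGroup.reduce_toWord]
  rcases hw : FreeGroup.toWord x with _ | ⟨hd, tl⟩
  · exact absurd (FreeGroup.toWord_eq_nil_iff.1 hw) h.1
  · simp only
    split_ifs with h1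
    · rcases tl with _ | ⟨hd', tl'⟩
      · exfalso
        apply h.2
        rw [← FreeGroup.mk_toWord (x := x), hw]
        have h2 : hd = (c, false) := by
          apply Prod.ext
          · exact h1.1.symm
          · have := h1.2
            cases h4 : hd.2
            · rfl
            · rw [h4] at this
              exact absurd this (by decide)
        rw [h2]
        rfl
      · simp
    · simp

end free

theorem hFRB (h1 : StAEF) (h2 : StFRA) : StFRB := by
  classical
  intro α a b hab
  refine ⟨not_recPt h2 hab, ?_⟩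
  intro ν hν hL
  obtain ⟨Φ, hΦ⟩ : ∃ Φ : FreeGroup α → TB, ∀ x, Φ x = ⟨decide (lst x = some (a, true))⟩ :=
    ⟨_, fun _ => rfl⟩
  have hsm : ∀ (g : FreeGroup α) (y : TB), g • y = y := fun _ _ => rfl
  have hfin : ∀ g : FreeGroup α, {x | Φ (g • x) ≠ g • Φ x}.Finite := by
    intro g
    have hinv : ∀ g : FreeGroup α, {x | Φ (g * x) ≠ Φ x}.Finite →
        {x | Φ (g⁻¹ * x) ≠ Φ x}.Finite := by
      intro g hg
      refine (hg.image fun x => g * x).subset fun x hx => ?_
      refine ⟨g⁻¹ * x, ?_, by group⟩
      intro h
      apply hx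
      rw [← h]
      congr 1
      group
    have main : {x | Φ (g * x) ≠ Φ x}.Finite := by
      induction g using FreeGroup.induction_on with
      | C1 => simp
      | of c =>
        refine (lst_left c).subset fun x hx h => hx ?_
        rw [hΦ, hΦ, h]
      | inv_of c ih => exact hinv _ ih
      | mul g g' hg hg' =>
        have h3 : {x | Φ (g * (g' * x)) ≠ Φ (g' * x)}.Finite := by
          have : {x | Φ (g * (g' * x)) ≠ Φ (g' * x)} =
              (fun x => g' * x) ⁻¹' {x | Φ (g * x) ≠ Φ x} := rfl
          rw [this]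
          exact hg.preimage (mul_right_injective g').injOn
        refine (h3.union hg').subset fun x hx => ?_
        by_contra h
        rw [Set.mem_union, not_or] at h
        apply hx
        have e1 : Φ (g * (g' * x)) = Φ (g' * x) := by
          by_contra h4
          exact h.1 h4
        have e2 : Φ (g' * x) = Φ x := by
          by_contra h4
          exact h.2 h4
        rw [mul_assoc, e1, e2]
    exact main
  obtain ⟨y₀, -, hcap⟩ := h1 (FreeGroup α) (FreeGroup α) TB Φ ν hν hL hfin 1 (not_recPt h2 hab)
  have hset : {x | ∃ g : FreeGroup α, g • (1 : FreeGroup α) = x ∧ Φ x ≠ g • y₀} =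
      {x | Φ x ≠ y₀} := by
    ext x
    constructor
    · rintro ⟨g, -, hg⟩
      exact hg
    · intro hx
      exact ⟨x, by rw [smul_eq_mul, mul_one], hx⟩
  rw [hset] at hcap
  have hab' : b ≠ a := fun h => hab h.symm
  rcases hb : y₀.b with _ | _
  · -- `y₀ = false`: the set is the set of the elements with last letter `a`
    have hD : {x | Φ x ≠ y₀} = {x : FreeGroup α | lst x = some (a, true)} := by
      ext x
      constructor
      · intro hx
        by_contra h
        apply hx
        rw [hΦ]
        have : y₀ = ⟨false⟩ := by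
          cases y₀
          exact congrArg TB.mk hb
        have h' : ¬ (lst x = some (a, true)) := h
        rw [this, decide_eq_false h']
      · intro hx h
        have hx' : lst x = some (a, true) := hx
        rw [hΦ, decide_eq_true hx'] at h
        rw [← h] at hb
        exact absurd hb (by simp)
    rw [hD] at hcap
    have h5 := finCap_union (finCap_union hcap (finCap_right hcap (FreeGroup.of a)))
      (finCap_right hcap (FreeGroup.of b * FreeGroup.of a))
    apply not_finCap h2 hab
    convert h5 using 1
    symm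
    rw [Set.eq_univ_iff_forall]
    intro x
    by_cases hx : lst x = some (a, false)
    · right
      change lst (x * (FreeGroup.of b * FreeGroup.of a)) = some (a, true)
      rw [← mul_assoc]
      apply lst_mul
      rw [lst_mul x b]
      · simp
      · rw [hx]
        simp [hab]
    · left
      right
      exact lst_mul x a hx
  · have hD : {x | Φ x ≠ y₀} = {x : FreeGroup α | lst x ≠ some (a, true)} := by
      ext x
      constructor
      · intro hx h
        apply hx
        rw [hΦ]
        have : y₀ = ⟨true⟩ := by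
          cases y₀
          exact congrArg TB.mk hb
        rw [this, decide_eq_true h]
      · intro hx h
        rw [hΦ, decide_eq_false hx] at h
        rw [← h] at hb
        exact absurd hb (by simp)
    rw [hD] at hcap
    have h5 := finCap_union hcap (finCap_right hcap (FreeGroup.of b))
    apply not_finCap h2 hab
    convert h5 using 1
    symm
    rw [Set.eq_univ_iff_forall]
    intro x
    by_cases hx : lst x = some (a, true)
    · right
      change lst (x * FreeGroup.of b) ≠ some (a, true)
      rw [lst_mul x b]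
      · simp [hab']
      · rw [hx]
        simp
    · left
      exact hx

end Pool.Agent.Helper92.FN
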